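import Pool.Agent.Helper9.TN.Defs

set_option autoImplicit false

open Finset Filter Asymptotics
open scoped Nat

namespace Pool.Agent.TN

theorem ev_a {C ε : ℝ} (hC : 0 < C) (hε : 0 < ε) :
    ∀ᶠ u : ℝ in atTop, C * u ^ (1 - ε) * (2 + Real.log u) ≤ u / 4 := by
  have h1 : (fun u : ℝ => 2 + Real.log u) =o[atTop] fun u => u ^ ε := by
    apply IsLittleO.add _ (isLittleO_log_rpow_atTop hε)
    apply isLittleO_const_left.2
    right
    exact tendsto_norm_atTop_atTop.comp (tendsto_rpow_atTop hε)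
  have h2 := h1.def (c := 1 / (4 * C)) (by positivity)
  filter_upwards [h2, eventually_gt_atTop (1 : ℝ)] with u hu hu1
  have hu0 : 0 < u := by linarith
  rw [Real.norm_of_nonneg (by positivity : (0 : ℝ) ≤ u ^ ε)] at hu
  have h3 := (le_abs_self _).trans hu
  have h4 : C * u ^ (1 - ε) * (2 + Real.log u) ≤ C * u ^ (1 - ε) * (1 / (4 * C) * u ^ ε) :=
    mul_le_mul_of_nonneg_left h3 (by positivity)
  refine h4.trans (le_of_eq ?_)
  have h5 : u ^ (1 - ε) * u ^ ε = u := by
    rw [← Real.rpow_add hu0]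
    simp
  calc C * u ^ (1 - ε) * (1 / (4 * C) * u ^ ε) = (u ^ (1 - ε) * u ^ ε) * (1 / 4) := by
        field_simp
    _ = u / 4 := by rw [h5]; ring

theorem ev_b {C : ℝ} (hC : 0 < C) {b : ℝ} (hb : 0 < b) :
    ∀ᶠ u : ℝ in atTop, C * (1 + u) ≤ Real.exp (b * u) := by
  have h1 : (fun u : ℝ => 1 + u) =o[atTop] fun u => Real.exp (b * u) := by
    apply IsLittleO.add
    · simpa using isLittleO_pow_exp_pos_mul_atTop (k := 0) hb
    · simpa using isLittleO_pow_exp_pos_mul_atTop (k := 1) hb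
  have h2 := h1.def (c := 1 / C) (by positivity)
  filter_upwards [h2] with u hu
  rw [Real.norm_of_nonneg (Real.exp_pos _).le] at hu
  have h3 := (le_abs_self _).trans hu
  have h4 := mul_le_mul_of_nonneg_left h3 hC.le
  refine h4.trans (le_of_eq ?_)
  field_simp

theorem ev_d : ∀ᶠ u : ℝ in atTop, Real.log u ≤ u / 4 := by
  have h2 := Real.isLittleO_log_id_atTop.def (c := 1 / 4) (by norm_num)
  filter_upwards [h2, eventually_gt_atTop (1 : ℝ)] with u hu hu1
  simp only [id] at hu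
  rw [Real.norm_of_nonneg (by linarith : (0 : ℝ) ≤ u)] at hu
  have h3 := (le_abs_self _).trans hu
  linarith

theorem exc_count_of
    (h5a : ∀ {N y : ℕ} {β A : ℝ}, 0 ≤ β → 0 < A → ∀ S : Finset ℕ,
      (∀ n ∈ S, 1 ≤ n ∧ n ≤ N ∧ A ≤ (sm y (U n) : ℝ)) →
      (S.card : ℝ) ≤ N * A ^ (-β) * Real.exp (∑ r ∈ (Finset.Icc 1 N).filter Nat.Prime,
        (sm y (r - 1) : ℝ) ^ β / (r - 1)))
    (h5b : ∃ C : ℝ, 0 < C ∧ ∀ (N y : ℕ) (β : ℝ), 3 ≤ N → 3 ≤ y → 0 ≤ β →
      β ≤ 1 / 4 →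
      ∑ r ∈ (Finset.Icc 1 N).filter Nat.Prime, (sm y (r - 1) : ℝ) ^ β / (r - 1) ≤
        C * (1 + Real.log (Real.log N)) *
          Real.exp (C * (y : ℝ) ^ β * (1 + Real.log (Real.log y))))
    {ε : ℝ} (hε : 0 < ε) (hε1 : ε ≤ 1 / 10) :
    ∀ᶠ N : ℕ in Filter.atTop, ∀ y : ℕ, 3 ≤ y → (y : ℝ) ≤ (Real.log N) ^ (1 + 2 * ε) →
      ∀ S : Finset ℕ, (∀ n ∈ S, 1 ≤ n ∧ n ≤ N ∧ (N : ℝ) ^ (1 - 2 * ε) ≤ (sm y (U n) : ℝ)) →
      (S.card : ℝ) ≤
        N * Real.exp (-((1 - 6 * ε) * Real.log N * Real.log (Real.log (Real.log N)) /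
          Real.log (Real.log N))) := by
  obtain ⟨C, hC0, hC⟩ := h5b
  have htend : Tendsto (fun N : ℕ => Real.log (Real.log N)) atTop atTop :=
    Real.tendsto_log_atTop.comp (Real.tendsto_log_atTop.comp tendsto_natCast_atTop_atTop)
  have hev := htend.eventually ((ev_a hC0 hε).and ((ev_b hC0 (b := 1 / 4) (by norm_num)).and
    ((ev_b (C := 1 / ε) (by positivity) (b := 1 / 2) (by norm_num)).and
      (ev_d.and (eventually_ge_atTop (3 : ℝ))))))
  filter_upwards [hev, eventually_ge_atTop 3] with N hN hN3 y hy3 hyL S hS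
  obtain ⟨ha, hb, hc, hd, hu3⟩ := hN
  set u := Real.log (Real.log N) with hu
  set v := Real.log u with hv
  set L := Real.log N with hL
  have hNR : (3 : ℝ) ≤ N := by exact_mod_cast hN3
  have hN0 : (0 : ℝ) < N := by linarith
  have hL1 : 1 ≤ L := by
    rw [hL, Real.le_log_iff_exp_le (by linarith)]
    have := Real.exp_one_lt_d9
    linarith
  have hL0 : 0 < L := by linarith
  have hexpu : Real.exp u = L := by
    rw [hu]; exact Real.exp_log hL0
  have hu0 : 0 < u := by linarith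
  have hv1 : 1 ≤ v := by
    rw [hv, Real.le_log_iff_exp_le hu0]
    have := Real.exp_one_lt_d9
    linarith
  have hexpv : Real.exp v = u := by
    rw [hv]; exact Real.exp_log hu0
  set β : ℝ := (1 - ε) * v / ((1 + 2 * ε) * u) with hβ
  have hβ0 : 0 ≤ β := by
    rw [hβ]
    have : 0 ≤ 1 - ε := by linarith
    positivity
  have hβ4 : β ≤ 1 / 4 := by
    rw [hβ, div_le_iff₀ (by positivity)]
    have h1 : (1 - ε) * v ≤ v := by nlinarith
    have h2 : u ≤ (1 + 2 * ε) * u := by nlinarith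
    linarith
  have h1 := h5a (y := y) (A := (N : ℝ) ^ (1 - 2 * ε)) hβ0 (by positivity) S hS
  have h2 := hC N y β hN3 hy3 hβ0 hβ4
  -- the sum
  have hy0 : (0 : ℝ) < y := by exact_mod_cast (by omega : 0 < y)
  have hyβ : (y : ℝ) ^ β ≤ u ^ (1 - ε) := by
    have h3 : (y : ℝ) ^ β ≤ (L ^ (1 + 2 * ε)) ^ β := Real.rpow_le_rpow hy0.le hyL hβ0
    refine h3.trans (le_of_eq ?_)
    rw [← Real.rpow_mul hL0.le, ← hexpu, ← Real.exp_mul]
    conv_rhs => rw [← hexpv, ← Real.exp_mul]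
    congr 1
    rw [hβ]
    field_simp
  have hlly : 1 + Real.log (Real.log y) ≤ 2 + v := by
    have h3 : Real.log y ≤ (1 + 2 * ε) * u := by
      have h4 := Real.log_le_log hy0 hyL
      rwa [Real.log_rpow hL0] at h4
    have hy1 : 1 ≤ Real.log y := by
      rw [Real.le_log_iff_exp_le hy0]
      have h5 : (3 : ℝ) ≤ y := by exact_mod_cast hy3
      have := Real.exp_one_lt_d9
      linarith
    have h4 : Real.log (Real.log y) ≤ Real.log ((1 + 2 * ε) * u) :=
      Real.log_le_log (by linarith) h3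
    rw [Real.log_mul (by linarith) hu0.ne'] at h4
    have h5 : Real.log (1 + 2 * ε) ≤ 1 := by
      have := Real.log_le_sub_one_of_pos (x := 1 + 2 * ε) (by linarith)
      linarith
    linarith
  have hlly0 : 0 ≤ 1 + Real.log (Real.log y) := by
    have h5 : (3 : ℝ) ≤ y := by exact_mod_cast hy3
    have hy1 : 1 ≤ Real.log y := by
      rw [Real.le_log_iff_exp_le hy0]
      have := Real.exp_one_lt_d9
      linarith
    have := Real.log_nonneg hy1
    linarith
  have h3 : C * (y : ℝ) ^ β * (1 + Real.log (Real.log y)) ≤ u / 4 := by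
    refine le_trans ?_ ha
    apply mul_le_mul _ hlly hlly0 (by positivity)
    exact mul_le_mul_of_nonneg_left hyβ hC0.le
  have h4 : C * (1 + u) * Real.exp (C * (y : ℝ) ^ β * (1 + Real.log (Real.log y))) ≤
      Real.exp (u / 2) := by
    have h5 : C * (1 + u) * Real.exp (C * (y : ℝ) ^ β * (1 + Real.log (Real.log y))) ≤
        Real.exp (1 / 4 * u) * Real.exp (u / 4) := by
      apply mul_le_mul hb (Real.exp_le_exp.2 h3) (Real.exp_pos _).le (Real.exp_pos _).le
    refine h5.trans (le_of_eq ?_)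
    rw [← Real.exp_add]
    congr 1
    ring
  have h5 : Real.exp (u / 2) ≤ ε * (L * v / u) := by
    have h6 : 1 / ε * (1 + u) ≤ Real.exp (1 / 2 * u) := hc
    have h7 : 1 + u ≤ ε * Real.exp (1 / 2 * u) := by
      have h8 := mul_le_mul_of_nonneg_left h6 hε.le
      have h9 : ε * (1 / ε * (1 + u)) = 1 + u := by field_simp
      rwa [h9] at h8
    have h8 : L = Real.exp (u / 2) * Real.exp (1 / 2 * u) := by
      rw [← Real.exp_add, ← hexpu]
      congr 1
      ring
    rw [mul_div_assoc', le_div_iff₀ hu0]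
    have h9 : Real.exp (u / 2) * u ≤ Real.exp (u / 2) * (ε * Real.exp (1 / 2 * u)) :=
      mul_le_mul_of_nonneg_left (by linarith) (Real.exp_pos _).le
    have h10 : Real.exp (u / 2) * (ε * Real.exp (1 / 2 * u)) = ε * L := by
      rw [h8]; ring
    rw [h10] at h9
    have h11 : ε * L ≤ ε * (L * v) := by
      apply mul_le_mul_of_nonneg_left _ hε.le
      nlinarith
    linarith
  -- conclusion
  have h6 : ((N : ℝ) ^ (1 - 2 * ε)) ^ (-β) = Real.exp (-((1 - 2 * ε) * β * L)) := by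
    rw [← Real.rpow_mul hN0.le, Real.rpow_def_of_pos hN0]
    congr 1
    rw [← hL]
    ring
  rw [h6, mul_assoc, ← Real.exp_add] at h1
  refine h1.trans ?_
  apply mul_le_mul_of_nonneg_left _ hN0.le
  apply Real.exp_le_exp.2
  have h7 : (1 - 5 * ε) * (L * v / u) ≤ (1 - 2 * ε) * β * L := by
    have h8 : (1 - 2 * ε) * β * L = ((1 - 2 * ε) * (1 - ε) / (1 + 2 * ε)) * (L * v / u) := by
      rw [hβ]
      field_simp
    rw [h8]
    apply mul_le_mul_of_nonneg_right _ (by positivity)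
    rw [le_div_iff₀ (by linarith)]
    nlinarith [sq_nonneg ε]
  have h8 : (1 - 6 * ε) * L * v / u = (1 - 5 * ε) * (L * v / u) - ε * (L * v / u) := by ring
  rw [h8]
  linarith

end Pool.Agent.TN
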