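import Pool.Agent.Helper9.TN.Defs

set_option autoImplicit false

open Finset
open scoped Nat

namespace Pool.Agent.TN

theorem sum_inv_le_one_add_log (J : ℕ) (hJ : 1 ≤ J) :
    ∑ j ∈ Finset.Icc 1 J, (1 / j : ℝ) ≤ 1 + Real.log J := by
  have h := harmonic_le_one_add_log J
  rw [harmonic_eq_sum_Icc] at h
  push_cast at h
  simpa [one_div] using h

theorem sum_inv_primes_mod_of
    (hs : ∃ C : ℝ, 0 < C ∧ ∀ (T e : ℕ), 2 ≤ T → 1 ≤ e →
    (((Finset.Ico T (2 * T)).filter (fun t => (t * e + 1).Prime)).card : ℝ) ≤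
      C * T * (e / φ e) / Real.log T) : ∃ C : ℝ, 0 < C ∧ ∀ (X e : ℕ), 3 ≤ X → 1 ≤ e →
    ∑ r ∈ (Finset.Icc 1 X).filter (fun r => r.Prime ∧ e ∣ r - 1), (1 / r : ℝ) ≤
      C * (1 + Real.log (Real.log X)) / φ e := by
  obtain ⟨C, hC0, hC⟩ := hs
  refine ⟨1 + 4 * C, by positivity, ?_⟩
  intro X e hX he
  have hphi : (0 : ℝ) < φ e := by exact_mod_cast Nat.totient_pos.2 (by omega)
  have he0 : (0 : ℝ) < e := by exact_mod_cast he
  have hphie : (φ e : ℝ) ≤ e := by exact_mod_cast Nat.totient_le e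
  set J : ℕ := Nat.log 2 X with hJdef
  have hJ1 : 1 ≤ J := Nat.log_pos (by norm_num) (by omega)
  set A := (Finset.Icc 1 X).filter (fun r => r.Prime ∧ e ∣ r - 1) with hA
  have hAmem : ∀ r ∈ A, r ≤ X ∧ r.Prime ∧ 1 ≤ (r - 1) / e ∧ (r - 1) / e * e + 1 = r ∧
      (r - 1) / e ≤ X := by
    intro r hr
    rw [hA, Finset.mem_filter, Finset.mem_Icc] at hr
    obtain ⟨⟨h1, h2⟩, h3, h4⟩ := hr
    have h5 := h3.two_le
    have h6 : (r - 1) / e * e = r - 1 := Nat.div_mul_cancel h4
    refine ⟨h2, h3, ?_, by omega, ?_⟩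
    · rw [Nat.one_le_div_iff (by omega)]
      exact Nat.le_of_dvd (by omega) h4
    · exact (Nat.div_le_self _ _).trans (by omega)
  have hmaps : ∀ r ∈ A, Nat.log 2 ((r - 1) / e) ∈ Finset.range (J + 1) := by
    intro r hr
    rw [Finset.mem_range, hJdef]
    have := Nat.log_mono_right (b := 2) (hAmem r hr).2.2.2.2
    omega
  rw [← Finset.sum_fiberwise_of_maps_to hmaps]
  -- one fibre
  have hfib : ∀ j ∈ Finset.range (J + 1), ∀ B : ℝ,
      (((Finset.Ico (2 ^ j) (2 * 2 ^ j)).filter (fun t => (t * e + 1).Prime)).card : ℝ) ≤ B →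
      ∑ r ∈ A.filter (fun r => Nat.log 2 ((r - 1) / e) = j), (1 / r : ℝ) ≤
        B / ((2 : ℝ) ^ j * e) := by
    intro j _ B hB
    have h1 : ∀ r ∈ A.filter (fun r => Nat.log 2 ((r - 1) / e) = j),
        (1 / r : ℝ) ≤ 1 / ((2 : ℝ) ^ j * e) := by
      intro r hr
      rw [Finset.mem_filter] at hr
      obtain ⟨h2, h3⟩ := hr
      obtain ⟨h4, h5, h6, h7, h8⟩ := hAmem r h2
      apply one_div_le_one_div_of_le (by positivity)
      have h9 : 2 ^ j ≤ (r - 1) / e := by
        rw [← h3]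
        exact Nat.pow_log_le_self 2 (by omega)
      have h10 : 2 ^ j * e ≤ r := by
        have := Nat.mul_le_mul_right e h9
        omega
      exact_mod_cast h10
    refine (Finset.sum_le_sum h1).trans ?_
    rw [Finset.sum_const, nsmul_eq_mul, mul_one_div]
    apply div_le_div_of_nonneg_right _ (by positivity)
    refine le_trans ?_ hB
    have h2 : (A.filter (fun r => Nat.log 2 ((r - 1) / e) = j)).card ≤
        ((Finset.Ico (2 ^ j) (2 * 2 ^ j)).filter (fun t => (t * e + 1).Prime)).card := by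
      apply Finset.card_le_card_of_injOn (fun r => (r - 1) / e)
      · intro r hr
        rw [Finset.mem_coe, Finset.mem_filter] at hr
        obtain ⟨h2, h3⟩ := hr
        obtain ⟨h4, h5, h6, h7, h8⟩ := hAmem r h2
        rw [Finset.mem_coe, Finset.mem_filter, Finset.mem_Ico]
        refine ⟨⟨?_, ?_⟩, ?_⟩
        · rw [← h3]
          exact Nat.pow_log_le_self 2 (by omega)
        · rw [← h3]
          have := Nat.lt_pow_succ_log_self (b := 2) (by norm_num) ((r - 1) / e)
          rw [Nat.pow_succ] at this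
          rw [h3] at this ⊢
          simp only
          omega
        · rw [h7]; exact h5
      · intro r hr r' hr' h
        rw [Finset.mem_coe, Finset.mem_filter] at hr hr'
        have h1 := (hAmem r hr.1).2.2.2.1
        have h2 := (hAmem r' hr'.1).2.2.2.1
        simp only at h
        rw [← h1, ← h2, h]
    exact_mod_cast h2
  have hlog2 : (0.69 : ℝ) < Real.log 2 := by
    have := Real.log_two_gt_d9; linarith
  have hlog2' : Real.log 2 < (0.7 : ℝ) := by
    have := Real.log_two_lt_d9; linarith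
  rw [Finset.sum_range_eq_add_Ico _ (by omega)]
  have h0 : ∑ r ∈ A.filter (fun r => Nat.log 2 ((r - 1) / e) = 0), (1 / r : ℝ) ≤ 1 / φ e := by
    have h1 := hfib 0 (by simp) 1 (by
      have : ((Finset.Ico (2 ^ 0) (2 * 2 ^ 0)).filter (fun t => (t * e + 1).Prime)).card ≤
          (Finset.Ico (2 ^ 0) (2 * 2 ^ 0)).card := Finset.card_filter_le _ _
      have h2 : (Finset.Ico (2 ^ 0) (2 * 2 ^ 0)).card = 1 := by simp
      rw [h2] at this
      exact_mod_cast this)
    refine h1.trans ?_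
    rw [pow_zero, one_mul]
    exact one_div_le_one_div_of_le hphi hphie
  have h1 : ∑ j ∈ Finset.Ico 1 (J + 1),
      ∑ r ∈ A.filter (fun r => Nat.log 2 ((r - 1) / e) = j), (1 / r : ℝ) ≤
      ∑ j ∈ Finset.Icc 1 J, (2 * C / φ e) * (1 / j : ℝ) := by
    rw [Finset.Ico_add_one_right_eq_Icc]
    apply Finset.sum_le_sum
    intro j hj
    rw [Finset.mem_Icc] at hj
    have hj0 : (0 : ℝ) < j := by exact_mod_cast (by omega : 0 < j)
    have hT : 2 ≤ 2 ^ j := by
      calc 2 = 2 ^ 1 := by norm_num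
        _ ≤ 2 ^ j := Nat.pow_le_pow_right (by norm_num) hj.1
    refine (hfib j (by rw [Finset.mem_range]; omega) _ (hC (2 ^ j) e hT he)).trans ?_
    push_cast
    rw [Real.log_pow]
    have e1 : C * 2 ^ j * (e / φ e) / (j * Real.log 2) / (2 ^ j * (e : ℝ)) =
        (C / φ e) * (1 / j) * (1 / Real.log 2) := by
      field_simp
    rw [e1]
    have h2 : 1 / Real.log 2 ≤ 2 := by
      rw [div_le_iff₀ (by linarith)]
      linarith
    calc (C / φ e) * (1 / j) * (1 / Real.log 2) ≤ (C / φ e) * (1 / j) * 2 :=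
          mul_le_mul_of_nonneg_left h2 (by positivity)
      _ = (2 * C / φ e) * (1 / j : ℝ) := by ring
  rw [← Finset.mul_sum] at h1
  have h2 := sum_inv_le_one_add_log J hJ1
  have hX3 : (3 : ℝ) ≤ X := by exact_mod_cast hX
  have hlog3 : (1 : ℝ) ≤ Real.log X := by
    rw [Real.le_log_iff_exp_le (by linarith)]
    have := Real.exp_one_lt_d9
    linarith
  have hll : 0 ≤ Real.log (Real.log X) := Real.log_nonneg hlog3
  have hJ0 : (0 : ℝ) < J := by exact_mod_cast (by omega : 0 < J)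
  have h3 : Real.log J ≤ Real.log (Real.log X) + 1 := by
    have h4 : (J : ℝ) * Real.log 2 ≤ Real.log X := by
      rw [← Real.log_pow]
      apply Real.log_le_log (by positivity)
      exact_mod_cast Nat.pow_log_le_self 2 (by omega)
    have h5 : (J : ℝ) ≤ Real.log X * 2 := by nlinarith
    have h6 : Real.log J ≤ Real.log (Real.log X * 2) := Real.log_le_log hJ0 h5
    rw [Real.log_mul (by linarith) (by norm_num)] at h6
    linarith
  have h5 : ∑ j ∈ Finset.Icc 1 J, (1 / j : ℝ) ≤ 2 * (1 + Real.log (Real.log X)) := by linarith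
  have h6 : (2 * C / φ e) * ∑ j ∈ Finset.Icc 1 J, (1 / j : ℝ) ≤
      (2 * C / φ e) * (2 * (1 + Real.log (Real.log X))) :=
    mul_le_mul_of_nonneg_left h5 (by positivity)
  have h7 : (1 : ℝ) / φ e ≤ (1 + Real.log (Real.log X)) / φ e := by
    apply div_le_div_of_nonneg_right _ hphi.le
    linarith
  have h8 : (1 + 4 * C) * (1 + Real.log (Real.log X)) / φ e =
      (1 + Real.log (Real.log X)) / φ e + (2 * C / φ e) * (2 * (1 + Real.log (Real.log X))) := by
    ring
  rw [h8]
  linarith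

end Pool.Agent.TN
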