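import Pool.Agent.Helper9.TN.Basic

set_option autoImplicit false

open Finset
open scoped Nat

namespace Pool.Agent.TN

/-- the summand `s^β / φ(s)` -/
noncomputable def smf (β : ℝ) (s : ℕ) : ℝ := (s : ℝ) ^ β / φ s

theorem smf_nonneg (β : ℝ) (s : ℕ) : 0 ≤ smf β s := by
  unfold smf
  positivity

theorem smf_one (β : ℝ) : smf β 1 = 1 := by
  simp [smf]

theorem smf_mul (β : ℝ) {m n : ℕ} (h : Nat.Coprime m n) : smf β (m * n) = smf β m * smf β n := by
  unfold smf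
  rw [Nat.totient_mul h]
  push_cast
  rw [Real.mul_rpow (by positivity) (by positivity)]
  rw [mul_div_mul_comm]

theorem smf_pow_le (β : ℝ) {p : ℕ} (hp : p.Prime) (n : ℕ) :
    smf β (p ^ n) ≤ 2 * ((p : ℝ) ^ (β - 1)) ^ n := by
  have hp2 : (2 : ℝ) ≤ p := by exact_mod_cast hp.two_le
  have hp0 : (0 : ℝ) < p := by linarith
  rcases Nat.eq_zero_or_pos n with h | h
  · subst h
    rw [pow_zero, smf_one, pow_zero]
    norm_num
  · unfold smf
    rw [Nat.totient_prime_pow hp h]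
    have h1 : ((p ^ (n - 1) * (p - 1) : ℕ) : ℝ) = (p : ℝ) ^ (n - 1) * (p - 1) := by
      push_cast [Nat.cast_sub hp.one_lt.le]
      ring
    rw [h1]
    push_cast
    have h2 : ((p : ℝ) ^ (β - 1)) ^ n = ((p : ℝ) ^ n) ^ β / (p : ℝ) ^ n := by
      rw [Real.rpow_sub_one hp0.ne', div_pow]
      congr 1
      rw [← Real.rpow_natCast ((p : ℝ) ^ β) n, ← Real.rpow_natCast (p : ℝ) n,
        ← Real.rpow_mul hp0.le, ← Real.rpow_mul hp0.le, mul_comm]
    rw [h2]
    have h3 : (p : ℝ) ^ n = (p : ℝ) ^ (n - 1) * p := by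
      rw [← pow_succ]
      congr 1
      omega
    have hd : 0 < (p : ℝ) ^ (n - 1) * (p - 1) := by
      have : (0 : ℝ) < p - 1 := by linarith
      positivity
    rw [div_le_iff₀ hd]
    have h4 : 2 * (((p : ℝ) ^ n) ^ β / (p : ℝ) ^ n) * ((p : ℝ) ^ (n - 1) * (p - 1)) =
        ((p : ℝ) ^ n) ^ β * (2 * (p - 1) / p) := by
      rw [h3]
      field_simp
    rw [h4]
    apply le_mul_of_one_le_right (by positivity)
    rw [le_div_iff₀ hp0]
    linarith

theorem q_le {β : ℝ} (hβ : β ≤ 1 / 4) {p : ℕ} (hp : p.Prime) : (p : ℝ) ^ (β - 1) ≤ 3 / 5 := by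
  have hp2 : (2 : ℝ) ≤ p := by exact_mod_cast hp.two_le
  have h1 : (p : ℝ) ^ (β - 1) ≤ (p : ℝ) ^ (-(3 / 4) : ℝ) := by
    apply Real.rpow_le_rpow_of_exponent_le (by linarith)
    linarith
  have h2 : (p : ℝ) ^ (-(3 / 4) : ℝ) ≤ (2 : ℝ) ^ (-(3 / 4) : ℝ) :=
    Real.rpow_le_rpow_of_nonpos (by norm_num) hp2 (by norm_num)
  have h3 : (2 : ℝ) ^ (-(3 / 4) : ℝ) ≤ 3 / 5 := by
    have h4 : ((2 : ℝ) ^ (-(3 / 4) : ℝ)) ^ 4 ≤ (3 / 5 : ℝ) ^ 4 := by
      rw [← Real.rpow_natCast, ← Real.rpow_mul (by norm_num)]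
      have : (-(3 / 4) : ℝ) * ((4 : ℕ) : ℝ) = ((-3 : ℤ) : ℝ) := by norm_num
      rw [this, Real.rpow_intCast]
      norm_num
    exact (pow_le_pow_iff_left₀ (by positivity) (by norm_num) (by norm_num)).1 h4
  linarith

theorem smf_summable {β : ℝ} (hβ : β ≤ 1 / 4) {p : ℕ} (hp : p.Prime) :
    Summable (fun n : ℕ => smf β (p ^ n)) := by
  have hq := q_le hβ hp
  have hg : Summable (fun n : ℕ => 2 * ((p : ℝ) ^ (β - 1)) ^ n) :=
    (summable_geometric_of_lt_one (by positivity) (by linarith)).mul_left 2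
  exact Summable.of_nonneg_of_le (fun n => smf_nonneg _ _) (fun n => smf_pow_le β hp n) hg

theorem smf_tsum_le {β : ℝ} (hβ : β ≤ 1 / 4) {p : ℕ} (hp : p.Prime) :
    ∑' n : ℕ, smf β (p ^ n) ≤ 1 + 5 * (p : ℝ) ^ (β - 1) := by
  have hq := q_le hβ hp
  have hq0 : (0 : ℝ) ≤ (p : ℝ) ^ (β - 1) := by positivity
  rw [(smf_summable hβ hp).tsum_eq_zero_add, pow_zero, smf_one]
  set q := (p : ℝ) ^ (β - 1) with hqdef
  have hg : Summable (fun n : ℕ => 2 * q * q ^ n) :=
    (summable_geometric_of_lt_one (by positivity) (by linarith)).mul_left (2 * q)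
  have h1 : ∑' n : ℕ, smf β (p ^ (n + 1)) ≤ ∑' n : ℕ, 2 * q * q ^ n := by
    apply Summable.tsum_le_tsum _ _ hg
    · intro n
      refine (smf_pow_le β hp (n + 1)).trans (le_of_eq ?_)
      rw [← hqdef]
      ring
    · exact (summable_nat_add_iff 1).2 (smf_summable hβ hp)
  rw [tsum_mul_left, tsum_geometric_of_lt_one hq0 (by linarith)] at h1
  have h2 : 2 * q * (1 - q)⁻¹ ≤ 5 * q := by
    rw [← div_eq_mul_inv, div_le_iff₀ (by linarith)]
    nlinarith
  linarith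

theorem sum_smf_le {β : ℝ} (hβ : β ≤ 1 / 4) (hβ0 : 0 ≤ β) (N y : ℕ) :
    ∑ s ∈ (Finset.Icc 1 N).filter (fun s => s ∈ Nat.smoothNumbers (y + 1)), smf β s ≤
      Real.exp (5 * (y : ℝ) ^ β * W y) := by
  classical
  have hE := EulerProduct.summable_and_hasSum_smoothNumbers_prod_primesBelow_tsum
    (f := smf β) (smf_one β) (fun h => smf_mul β h) (fun {p} hp => by
      simpa [Real.norm_of_nonneg (smf_nonneg _ _)] using smf_summable hβ hp) (y + 1)
  have h1 : ∑ s ∈ (Finset.Icc 1 N).filter (fun s => s ∈ Nat.smoothNumbers (y + 1)), smf β s ≤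
      ∑' m : Nat.smoothNumbers (y + 1), smf β m := by
    rw [← Finset.sum_subtype_eq_sum_filter]
    exact hE.2.summable.sum_le_tsum _ (fun i _ => smf_nonneg _ _)
  rw [hE.2.tsum_eq] at h1
  refine h1.trans ?_
  have h2 : ∏ p ∈ (y + 1).primesBelow, ∑' n : ℕ, smf β (p ^ n) ≤
      ∏ p ∈ (y + 1).primesBelow, Real.exp (5 * (y : ℝ) ^ β * (1 / p)) := by
    apply Finset.prod_le_prod
    · intro p _
      exact tsum_nonneg fun n => smf_nonneg _ _
    · intro p hp
      rw [Nat.mem_primesBelow] at hp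
      have hp0 : (0 : ℝ) < p := by exact_mod_cast hp.2.pos
      refine (smf_tsum_le hβ hp.2).trans ?_
      have h3 : (p : ℝ) ^ (β - 1) ≤ (y : ℝ) ^ β * (1 / p) := by
        rw [Real.rpow_sub_one hp0.ne', mul_one_div]
        apply div_le_div_of_nonneg_right _ hp0.le
        apply Real.rpow_le_rpow hp0.le _ hβ0
        exact_mod_cast (by omega : p ≤ y)
      have h4 := Real.add_one_le_exp (5 * (y : ℝ) ^ β * (1 / p))
      linarith
  refine h2.trans (le_of_eq ?_)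
  rw [← Real.exp_sum, ← Finset.mul_sum]
  congr 2
  unfold W
  apply Finset.sum_congr _ (fun _ _ => rfl)
  ext p
  rw [Nat.mem_primesBelow, Finset.mem_filter, Finset.mem_Icc]
  constructor
  · rintro ⟨h5, h6⟩
    exact ⟨⟨h6.one_lt.le, by omega⟩, h6⟩
  · rintro ⟨⟨_, h5⟩, h6⟩
    exact ⟨by omega, h6⟩

theorem sum_smooth_le_of (hm : ∃ C : ℝ, 0 < C ∧ ∀ (X e : ℕ), 3 ≤ X → 1 ≤ e →
    ∑ r ∈ (Finset.Icc 1 X).filter (fun r => r.Prime ∧ e ∣ r - 1), (1 / r : ℝ) ≤
      C * (1 + Real.log (Real.log X)) / φ e) :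
    ∃ C : ℝ, 0 < C ∧ ∀ (N y : ℕ) (β : ℝ), 3 ≤ N → 3 ≤ y → 0 ≤ β →
    β ≤ 1 / 4 →
    ∑ r ∈ (Finset.Icc 1 N).filter Nat.Prime, (sm y (r - 1) : ℝ) ^ β / (r - 1) ≤
      C * (1 + Real.log (Real.log N)) *
        Real.exp (C * (y : ℝ) ^ β * (1 + Real.log (Real.log y))) := by
  classical
  obtain ⟨C, hC0, hC⟩ := hm
  obtain ⟨C', hC'0, hC'⟩ := W_le
  refine ⟨2 * C + (5 + 5 * C'), by positivity, ?_⟩
  intro N y β hN hy hβ0 hβ
  have hll : ∀ x : ℕ, 3 ≤ x → 0 ≤ Real.log (Real.log x) := by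
    intro x hx
    have hX3 : (3 : ℝ) ≤ x := by exact_mod_cast hx
    apply Real.log_nonneg
    rw [Real.le_log_iff_exp_le (by linarith)]
    have := Real.exp_one_lt_d9
    linarith
  have hlN := hll N hN
  have hly := hll y hy
  set A := (Finset.Icc 1 N).filter Nat.Prime with hA
  set B := (Finset.Icc 1 N).filter (fun s => s ∈ Nat.smoothNumbers (y + 1)) with hB
  have hmaps : ∀ r ∈ A, sm y (r - 1) ∈ B := by
    intro r hr
    rw [hA, Finset.mem_filter, Finset.mem_Icc] at hr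
    obtain ⟨⟨_, h2⟩, h3⟩ := hr
    have h4 := h3.two_le
    rw [hB, Finset.mem_filter, Finset.mem_Icc]
    refine ⟨⟨sm_pos _ _, ?_⟩, ?_⟩
    · have := Nat.le_of_dvd (by omega) (sm_dvd (y := y) (m := r - 1) (by omega))
      omega
    · rw [Nat.mem_smoothNumbers']
      intro p hp hpd
      have := le_of_dvd_sm hp hpd
      omega
  rw [← Finset.sum_fiberwise_of_maps_to hmaps]
  have hfib : ∀ s ∈ B, ∑ r ∈ A.filter (fun r => sm y (r - 1) = s),
      (sm y (r - 1) : ℝ) ^ β / (r - 1) ≤ (2 * C * (1 + Real.log (Real.log N))) * smf β s := by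
    intro s hs
    rw [hB, Finset.mem_filter, Finset.mem_Icc] at hs
    have hs1 : 1 ≤ s := hs.1.1
    have h1 : ∀ r ∈ A.filter (fun r => sm y (r - 1) = s),
        (sm y (r - 1) : ℝ) ^ β / (r - 1) ≤ (2 * (s : ℝ) ^ β) * (1 / r) := by
      intro r hr
      rw [Finset.mem_filter, hA, Finset.mem_filter] at hr
      obtain ⟨⟨_, h3⟩, h4⟩ := hr
      rw [h4]
      have h5 : (2 : ℝ) ≤ r := by exact_mod_cast h3.two_le
      rw [mul_one_div, div_le_div_iff₀ (by linarith) (by linarith)]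
      have h6 : (0 : ℝ) ≤ (s : ℝ) ^ β := by positivity
      nlinarith
    refine (Finset.sum_le_sum h1).trans ?_
    rw [← Finset.mul_sum]
    have h2 : ∑ r ∈ A.filter (fun r => sm y (r - 1) = s), (1 / r : ℝ) ≤
        ∑ r ∈ (Finset.Icc 1 N).filter (fun r => r.Prime ∧ s ∣ r - 1), (1 / r : ℝ) := by
      apply Finset.sum_le_sum_of_subset_of_nonneg
      · intro r hr
        rw [Finset.mem_filter, hA, Finset.mem_filter] at hr
        rw [Finset.mem_filter]
        refine ⟨hr.1.1, hr.1.2, ?_⟩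
        rw [← hr.2]
        apply sm_dvd
        have := hr.1.2.two_le
        omega
      · intro r _ _
        positivity
    have h3 := h2.trans (hC N s hN hs1)
    refine (mul_le_mul_of_nonneg_left h3 (by positivity)).trans (le_of_eq ?_)
    unfold smf
    ring
  refine (Finset.sum_le_sum hfib).trans ?_
  rw [← Finset.mul_sum]
  have h1 := sum_smf_le hβ hβ0 N y
  have h2 : 5 * (y : ℝ) ^ β * W y ≤
      (2 * C + (5 + 5 * C')) * (y : ℝ) ^ β * (1 + Real.log (Real.log y)) := by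
    have h3 := hC' y hy
    have h4 : (0 : ℝ) ≤ (y : ℝ) ^ β := by positivity
    have h5 : 5 * W y ≤ (2 * C + (5 + 5 * C')) * (1 + Real.log (Real.log y)) := by
      nlinarith [mul_nonneg hC0.le hly, mul_nonneg hC'0.le hly]
    nlinarith [mul_le_mul_of_nonneg_left h5 h4]
  have h3 := h1.trans (Real.exp_le_exp.2 h2)
  refine (mul_le_mul_of_nonneg_left h3 (by positivity)).trans ?_
  apply mul_le_mul_of_nonneg_right _ (Real.exp_pos _).le
  apply mul_le_mul_of_nonneg_right _ (by positivity)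
  linarith

end Pool.Agent.TN
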